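import Mathlib
import Pool.Agent.Results.MP_550572_gt.Disproof
open Set Filter Topology unitInterval
namespace Pool.Agent.Results.MP_550572_gt.Disproof

/-! Sanity checks for the definitions: a pure braid projection on two strands whose CN matrix
has off-diagonal entries equal to two, and the trivial braid. -/

/-- The trivial pure braid projection. -/
def trivialBraid (n : ℕ) : BraidProjection n where
  x i := ContinuousMap.const I (i : ℝ)
  top := fun i j h => by simpa using h
  bottom := fun i j h => by simpa [Fin.ext_iff] using h
  finite := fun i j h => by simp [Fin.ext_iff.not.mp h]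
  double := fun i j k h _ _ t => by simp [Fin.ext_iff.not.mp h]
  cross := fun i j h t ht => by
    simp [Fin.ext_iff.not.mp h] at ht

/-- An auxiliary parabola. -/
noncomputable def parab : C(I, ℝ) :=
  ⟨fun t : I => ((t : ℝ) - 1 / 4) * ((t : ℝ) - 3 / 4), by fun_prop⟩

noncomputable def q1 : I := ⟨1 / 4, by norm_num, by norm_num⟩
noncomputable def q3 : I := ⟨3 / 4, by norm_num, by norm_num⟩

lemma parab_eq_zero (t : I) : parab t = 0 ↔ t = q1 ∨ t = q3 := by
  simp only [parab, ContinuousMap.coe_mk, mul_eq_zero, sub_eq_zero, q1, q3, Subtype.ext_iff]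

lemma parab_set : {t : I | parab t = 0} = {q1, q3} := by
  ext t
  exact parab_eq_zero t

lemma parab_pos_left {s : I} (h : s < q1) : 0 < parab s := by
  have h' : (s : ℝ) < 1 / 4 := h
  exact mul_pos_of_neg_of_neg (by linarith) (by linarith)

lemma parab_neg_mid {s : I} (h : q1 < s) (h2 : s < q3) : parab s < 0 := by
  have h' : (1 / 4 : ℝ) < s := h
  have h2' : (s : ℝ) < 3 / 4 := h2
  exact mul_neg_of_pos_of_neg (by linarith) (by linarith)

lemma parab_pos_right {s : I} (h : q3 < s) : 0 < parab s := by
  have h' : (3 / 4 : ℝ) < s := h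
  exact mul_pos (by linarith) (by linarith)

lemma q1_lt_q3 : q1 < q3 := by
  change (1 / 4 : ℝ) < 3 / 4
  norm_num

lemma parab_cross (t : I) (ht : parab t = 0) :
    ((∀ᶠ s in 𝓝[<] t, parab s < 0) ∧ (∀ᶠ s in 𝓝[>] t, 0 < parab s)) ∨
    ((∀ᶠ s in 𝓝[<] t, 0 < parab s) ∧ (∀ᶠ s in 𝓝[>] t, parab s < 0)) := by
  rcases (parab_eq_zero t).mp ht with rfl | rfl
  · right
    refine ⟨?_, ?_⟩
    · filter_upwards [self_mem_nhdsWithin] with s hs using parab_pos_left hs
    · filter_upwards [Ioo_mem_nhdsGT q1_lt_q3] with s hs using parab_neg_mid hs.1 hs.2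
  · left
    refine ⟨?_, ?_⟩
    · filter_upwards [Ioo_mem_nhdsLT q1_lt_q3] with s hs using parab_neg_mid hs.1 hs.2
    · filter_upwards [self_mem_nhdsWithin] with s hs using parab_pos_right hs

/-- Two strands crossing exactly twice. -/
noncomputable def fullTwist : BraidProjection 2 where
  x := ![0, parab]
  top := by
    intro i j h
    fin_cases i <;> fin_cases j <;> simp_all [parab]
  bottom := by
    intro i j h
    fin_cases i <;> fin_cases j <;> simp_all [parab] <;> norm_num at h
  finite := by
    intro i j h
    have hfin : ({q1, q3} : Set I).Finite := by simp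
    fin_cases i <;> fin_cases j
    · simp at h
    · convert hfin using 1
      rw [← parab_set]
      ext t
      simp [eq_comm]
    · convert hfin using 1
      rw [← parab_set]
      ext t
      simp
    · simp at h
  double := by
    intro i j k h1 h2 h3
    omega
  cross := by
    intro i j h t ht
    fin_cases i <;> fin_cases j
    · simp at h
    · have := parab_cross t (by simpa [eq_comm] using ht)
      simpa using this.symm
    · have := parab_cross t (by simpa using ht)
      simpa using this
    · simp at h

lemma fullTwist_isPure : fullTwist.IsPure := by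
  intro i j h
  fin_cases i <;> fin_cases j <;> simp_all [parab, fullTwist]
  norm_num

lemma fullTwist_cn : fullTwist.cn = !![0, 2; 2, 0] := by
  have h2 : ({q1, q3} : Set I).ncard = 2 := Set.ncard_pair (ne_of_lt q1_lt_q3)
  have h3 : {t : I | 0 = parab t}.ncard = 2 := by
    rw [← h2, ← parab_set]
    congr 1
    ext t
    simp [eq_comm]
  have h4 : {t : I | parab t = 0}.ncard = 2 := by
    rw [parab_set, h2]
  ext i j
  fin_cases i <;> fin_cases j
  · simp [BraidProjection.cn]
  · simpa [BraidProjection.cn, fullTwist] using h3
  · simpa [BraidProjection.cn, fullTwist] using h4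
  · simp [BraidProjection.cn]
end Pool.Agent.Results.MP_550572_gt.Disproof
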